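import Pool.Agent.Helper47.T3.Goals

/-!
# Project FLG (MP_c98eff_gt, helper47), packet T3F: transport of the theorem for the three-sphere
-/

set_option autoImplicit false

namespace Pool.Agent.Helper47.T3

open Finset MeasureTheory Pool.Agent.Helper73

theorem toQ_ofQ87 (q : TS.HH) : TS.toQ (ofQ q) = q := by
  unfold TS.toQ ofQ
  ext <;> simp

theorem norm_ofQ87 (q : TS.HH) : ‖ofQ q‖ = ‖q‖ := by
  have h1 : ‖ofQ q‖ ^ 2 = q.re ^ 2 + q.imI ^ 2 + q.imJ ^ 2 + q.imK ^ 2 := by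
    rw [EuclideanSpace.norm_sq_eq]
    unfold ofQ
    simp [Fin.sum_univ_four]
  have h2 : ‖q‖ ^ 2 = q.re ^ 2 + q.imI ^ 2 + q.imJ ^ 2 + q.imK ^ 2 := by
    rw [pow_two, ← Quaternion.normSq_eq_norm_mul_self, Quaternion.normSq_def']
  have h3 : ‖ofQ q‖ ^ 2 = ‖q‖ ^ 2 := h1.trans h2.symm
  exact (pow_left_inj₀ (norm_nonneg _) (norm_nonneg _) two_ne_zero).1 h3

theorem t_T3F (hT3M : A_T3M) (hT3D : A_T3D) (hT3V : A_T3V) (hT3P : A_T3P) : A_T3F := by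
  intro hTS δ hδ
  obtain ⟨ε, hε, h⟩ := hTS δ hδ
  refine ⟨ε, hε, fun M hM => ?_⟩
  obtain ⟨M', hM'⟩ := hT3M M
  have h1 := h M' (fun x hx => by
    have h2 := hT3P M δ (ofQ x) ((norm_ofQ87 x).trans hx) (hM _ ((norm_ofQ87 x).trans hx))
    rw [toQ_ofQ87] at h2
    rw [hM']
    exact h2)
  rw [hM', (hT3D M).2, hT3V M] at h1
  exact h1

end Pool.Agent.Helper47.T3
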